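import Pool.Agent.QSX.StmtsV

/-!
# QSX, row CGM
-/

set_option autoImplicit false

namespace Pool.Agent.QSX.H62

open Matrix Finset

theorem cgm : CgmStmt := by
  intro X hX
  let f : hX.ι × ℚ → (Matrix (Fin X.m) (Fin X.m) ℝ)ˣ := fun p => ue ((p.2 : ℝ) • hX.e p.1)
  have h1 : hX.Gam = (FreeGroup.lift f).range := by
    rw [FreeGroup.range_lift_eq_closure, Dat.Split.Gam]
    congr 1
    ext g
    constructor
    · rintro ⟨l, x, rfl⟩
      exact ⟨(l, x), rfl⟩
    · rintro ⟨⟨l, x⟩, rfl⟩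
      exact ⟨l, x, rfl⟩
  have h2 : Countable (hX.ι × ℚ) := inferInstance
  have h3 : Countable (FreeGroup (hX.ι × ℚ)) := inferInstance
  rw [h1, MonoidHom.coe_range]
  exact Set.countable_range _

end Pool.Agent.QSX.H62
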