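import Pool.Agent.QSX.StmtsW

/-!
# QSX, row LUD: length of a diagonal matrix
-/

set_option autoImplicit false

namespace Pool.Agent.QSX.H62

open Matrix Finset

open scoped Matrix.Norms.L2Operator in
theorem nrm_diag {m : ℕ} (v : Fin m → ℝ) : nrm (diagonal v) = ‖v‖ := by
  unfold nrm
  rw [Matrix.l2_opNorm_toEuclideanCLM, Matrix.l2_opNorm_diagonal]

theorem lud : LudStmt := by
  intro m c
  have h1 : ∀ v : Fin m → ℝ, (∀ i, |v i| ≤ ‖c‖) → ‖fun i => Real.exp (v i)‖ ≤ Real.exp ‖c‖ := by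
    intro v hv
    rw [pi_norm_le_iff_of_nonneg (Real.exp_pos _).le]
    intro i
    rw [Real.norm_eq_abs, abs_of_pos (Real.exp_pos _)]
    exact Real.exp_le_exp.2 ((le_abs_self _).trans (hv i))
  have h2 : ∀ i, |c i| ≤ ‖c‖ := fun i => norm_le_pi_norm c i
  have h3 : nrm ((ud c : (Matrix (Fin m) (Fin m) ℝ)ˣ) : Matrix (Fin m) (Fin m) ℝ) ≤
      Real.exp ‖c‖ := by
    change nrm (diagonal fun i => Real.exp (c i)) ≤ _
    rw [nrm_diag]
    exact h1 c h2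
  have h4 : nrm (((ud c)⁻¹ : (Matrix (Fin m) (Fin m) ℝ)ˣ) : Matrix (Fin m) (Fin m) ℝ) ≤
      Real.exp ‖c‖ := by
    change nrm (diagonal fun i => Real.exp (-c i)) ≤ _
    rw [nrm_diag]
    exact h1 (fun i => -c i) fun i => by rw [abs_neg]; exact h2 i
  unfold len
  have h5 : max (nrm ((ud c : (Matrix (Fin m) (Fin m) ℝ)ˣ) : Matrix (Fin m) (Fin m) ℝ))
    (nrm (((ud c)⁻¹ : (Matrix (Fin m) (Fin m) ℝ)ˣ) : Matrix (Fin m) (Fin m) ℝ)) ≤
      Real.exp ‖c‖ := max_le h3 h4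
  have h6 : 0 ≤ max (nrm ((ud c : (Matrix (Fin m) (Fin m) ℝ)ˣ) : Matrix (Fin m) (Fin m) ℝ))
    (nrm (((ud c)⁻¹ : (Matrix (Fin m) (Fin m) ℝ)ˣ) : Matrix (Fin m) (Fin m) ℝ)) :=
    le_max_of_le_left (norm_nonneg _)
  rcases h6.eq_or_lt with h | h
  · rw [← h, Real.log_zero]
    exact norm_nonneg _
  · exact (Real.log_le_iff_le_exp h).2 h5

end Pool.Agent.QSX.H62
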