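import Pool.Agent.QSX.StmtsB

/-!
# QSX, row PDV: pseudo division modulo a prime ideal of `A[X]`
-/

set_option autoImplicit false

namespace Pool.Agent.QSX.H62

open Polynomial

theorem coeffs_mem {A : Type} [CommRing A] (P : Ideal (Polynomial A)) (n : ℕ)
    (hP : ∀ g ∈ P, g.natDegree ≤ n → C g.leadingCoeff ∈ P) :
    ∀ f ∈ P, f.natDegree ≤ n → ∀ k, C (f.coeff k) ∈ P := by
  induction n with
  | zero =>
    intro f hf hn k
    have h0 : f.natDegree = 0 := Nat.le_zero.1 hn
    rcases Nat.eq_zero_or_pos k with hk | hk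
    · have h1 := hP f hf hn
      unfold leadingCoeff at h1
      rw [h0] at h1
      rwa [hk]
    · rw [coeff_eq_zero_of_natDegree_lt (by omega), C_0]
      exact P.zero_mem
  | succ n ih =>
    intro f hf hn k
    have h1 : f.eraseLead ∈ P := by
      have h2 : f.eraseLead = f - C f.leadingCoeff * X ^ f.natDegree := by
        rw [eq_sub_iff_add_eq]
        exact eraseLead_add_C_mul_X_pow f
      rw [h2]
      exact P.sub_mem hf (P.mul_mem_right _ (hP f hf hn))
    have h3 : f.eraseLead.natDegree ≤ n := (eraseLead_natDegree_le f).trans (by omega)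
    have h4 := ih (fun g hg hgn => hP g hg (by omega)) f.eraseLead h1 h3
    by_cases hk : k = f.natDegree
    · rw [hk]
      exact hP f hf hn
    · rw [← eraseLead_coeff_of_ne k hk]
      exact h4 k

theorem pseudo {A : Type} [CommRing A] (q : Polynomial A) (hD : 1 ≤ q.natDegree) (n : ℕ) :
    ∀ f : Polynomial A, f.natDegree ≤ n → ∃ (N : ℕ) (g r : Polynomial A),
      C q.leadingCoeff ^ N * f = g * q + r ∧ r.natDegree < q.natDegree := by
  induction n with
  | zero =>
    intro f hf
    exact ⟨0, 0, f, by rw [pow_zero, one_mul, zero_mul, zero_add], by omega⟩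
  | succ n ih =>
    intro f hf
    rcases Nat.lt_or_ge f.natDegree (n + 1) with h | h
    · exact ih f (by omega)
    have hfn : f.natDegree = n + 1 := le_antisymm hf h
    rcases Nat.lt_or_ge (n + 1) q.natDegree with hq | hq
    · exact ⟨0, 0, f, by rw [pow_zero, one_mul, zero_mul, zero_add], by omega⟩
    let f₁ : Polynomial A := C q.leadingCoeff * f -
      C f.leadingCoeff * (X ^ (n + 1 - q.natDegree) * q)
    have h1 : f₁.natDegree ≤ n := by
      rw [natDegree_le_iff_coeff_eq_zero]
      intro M hM
      have e : f₁.coeff M = q.leadingCoeff * f.coeff M - f.leadingCoeff *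
          (X ^ (n + 1 - q.natDegree) * q).coeff M := by
        simp only [f₁, coeff_sub, coeff_C_mul]
      rw [e, coeff_X_pow_mul', if_pos (by omega)]
      rcases Nat.lt_or_ge (n + 1) M with h2 | h2
      · rw [coeff_eq_zero_of_natDegree_lt (p := f) (by omega),
          coeff_eq_zero_of_natDegree_lt (p := q) (by omega), mul_zero, mul_zero, sub_zero]
      · have h3 : M = n + 1 := by omega
        have h4 : M - (n + 1 - q.natDegree) = q.natDegree := by omega
        rw [h4, h3, ← hfn]
        unfold leadingCoeff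
        ring
    obtain ⟨N, g, r, hgr, hr⟩ := ih f₁ h1
    refine ⟨N + 1, g + C q.leadingCoeff ^ N * C f.leadingCoeff * X ^ (n + 1 - q.natDegree), r,
      ?_, hr⟩
    have e2 : C q.leadingCoeff * f = f₁ + C f.leadingCoeff * (X ^ (n + 1 - q.natDegree) * q) := by
      simp only [f₁]
      ring
    calc C q.leadingCoeff ^ (N + 1) * f = C q.leadingCoeff ^ N * (C q.leadingCoeff * f) := by
          rw [pow_succ, mul_assoc]
      _ = C q.leadingCoeff ^ N * f₁ + C q.leadingCoeff ^ N *
          (C f.leadingCoeff * (X ^ (n + 1 - q.natDegree) * q)) := by rw [e2, mul_add]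
      _ = _ := by rw [hgr]; ring

theorem pdv : PdvStmt := by
  intro A _ _ P hP
  by_cases h : ∀ g ∈ P, C g.leadingCoeff ∈ P
  · left
    intro f hf
    exact coeffs_mem P f.natDegree (fun g hg _ => h g hg) f hf le_rfl
  · right
    push Not at h
    have hex : ∃ D : ℕ, ∃ g ∈ P, g.natDegree = D ∧ C g.leadingCoeff ∉ P := by
      obtain ⟨g, hg, hg'⟩ := h
      exact ⟨_, g, hg, rfl, hg'⟩
    classical
    obtain ⟨q, hq, hqD, hqlc⟩ := Nat.find_spec hex
    have hmin : ∀ g ∈ P, g.natDegree < q.natDegree → C g.leadingCoeff ∈ P := by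
      intro g hg hlt
      by_contra hcon
      rw [hqD] at hlt
      exact Nat.find_min hex hlt ⟨g, hg, rfl, hcon⟩
    have hD : 1 ≤ q.natDegree := by
      by_contra hcon
      have h0 : q.natDegree = 0 := by omega
      apply hqlc
      have h1 := eq_C_of_natDegree_eq_zero h0
      have h2 : C q.leadingCoeff = q := by
        unfold leadingCoeff
        rw [h0]
        exact h1.symm
      rwa [h2]
    have hc : ∀ r ∈ P, r.natDegree < q.natDegree → ∀ k, C (r.coeff k) ∈ P := by
      intro r hr hlt
      exact coeffs_mem P (q.natDegree - 1) (fun g hg hgn => hmin g hg (by omega)) r hr (by omega)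
    refine ⟨q, hq, ?_, q.leadingCoeff, hqlc, ?_⟩
    · intro hder
      have h1 := hc _ hder (natDegree_derivative_lt (by omega)) (q.natDegree - 1)
      rw [coeff_derivative, Nat.sub_add_cancel hD] at h1
      apply hqlc
      have h2 := P.mul_mem_right (C (algebraMap ℝ A (1 / (q.natDegree : ℝ)))) h1
      have h3 : C (q.coeff q.natDegree * ((q.natDegree - 1 : ℕ) + 1 : A)) *
          C (algebraMap ℝ A (1 / (q.natDegree : ℝ))) = C q.leadingCoeff := by
        rw [← C_mul]
        congr 1
        have h4 : ((q.natDegree - 1 : ℕ) + 1 : A) = algebraMap ℝ A (q.natDegree : ℝ) := by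
          rw [map_natCast]
          exact_mod_cast congrArg (Nat.cast : ℕ → A) (Nat.sub_add_cancel hD)
        have h5 : (q.natDegree : ℝ) ≠ 0 := by
          have : (0 : ℝ) < q.natDegree := by exact_mod_cast hD
          exact this.ne'
        rw [h4, mul_assoc, ← map_mul, mul_one_div_cancel h5, map_one, mul_one]
        rfl
      rwa [h3] at h2
    · intro f hf
      obtain ⟨N, g, r, hgr, hr⟩ := pseudo q hD f.natDegree f le_rfl
      refine ⟨N, g, r, hgr, hc r ?_ hr⟩
      have h1 : r = C q.leadingCoeff ^ N * f - g * q := by rw [hgr]; ring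
      rw [h1]
      exact P.sub_mem (P.mul_mem_left _ hf) (P.mul_mem_left _ hq)

end Pool.Agent.QSX.H62
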