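import Pool.Agent.QSX.StmtsM

/-!
# QSX, row UTS: groups of upper triangular matrices are solvable
-/

set_option autoImplicit false

namespace Pool.Agent.QSX.H62

open Matrix Finset

/-- vanishing below the `k`-th upper diagonal -/
def VV {m : ℕ} (k : ℕ) (x : Matrix (Fin m) (Fin m) ℝ) : Prop :=
  ∀ i j : Fin m, (j : ℕ) < i + k → x i j = 0

theorem VV.mul {m k l : ℕ} {x y : Matrix (Fin m) (Fin m) ℝ} (hx : VV k x) (hy : VV l y) :
    VV (k + l) (x * y) := by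
  intro i j h
  rw [Matrix.mul_apply]
  refine Finset.sum_eq_zero fun t _ => ?_
  by_cases ht : (t : ℕ) < i + k
  · rw [hx i t ht, zero_mul]
  · rw [hy t j (by omega), mul_zero]

theorem VV.add {m k : ℕ} {x y : Matrix (Fin m) (Fin m) ℝ} (hx : VV k x) (hy : VV k y) :
    VV k (x + y) := by
  intro i j h
  rw [Matrix.add_apply, hx i j h, hy i j h, add_zero]

theorem VV.sub {m k : ℕ} {x y : Matrix (Fin m) (Fin m) ℝ} (hx : VV k x) (hy : VV k y) :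
    VV k (x - y) := by
  intro i j h
  rw [Matrix.sub_apply, hx i j h, hy i j h, sub_zero]

theorem VV.neg {m k : ℕ} {x : Matrix (Fin m) (Fin m) ℝ} (hx : VV k x) : VV k (-x) := by
  intro i j h
  rw [Matrix.neg_apply, hx i j h, neg_zero]

theorem VV.mono {m k l : ℕ} {x : Matrix (Fin m) (Fin m) ℝ} (hx : VV l x) (h : k ≤ l) :
    VV k x := fun i j hij => hx i j (by omega)

theorem comm_one {m : ℕ} {x y : Matrix (Fin m) (Fin m) ℝ} (hx : VV 0 x) (hy : VV 0 y) :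
    VV 1 (x * y - y * x) := by
  have key : ∀ a b : Matrix (Fin m) (Fin m) ℝ, VV 0 a → VV 0 b → ∀ i j : Fin m,
      (j : ℕ) < i + 1 → (a * b) i j = if i = j then a i i * b i i else 0 := by
    intro a b ha hb i j h
    by_cases hij : i = j
    · subst hij
      rw [if_pos rfl, Matrix.mul_apply]
      refine Finset.sum_eq_single i (fun t _ ht => ?_) (fun h => absurd (Finset.mem_univ _) h)
      rcases lt_or_gt_of_ne (fun h' => ht (Fin.ext h') : (t : ℕ) ≠ i) with h1 | h1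
      · rw [ha i t (by omega), zero_mul]
      · rw [hb t i (by omega), mul_zero]
    · rw [if_neg hij]
      have h2 : (j : ℕ) ≠ i := fun h' => hij (Fin.ext h'.symm)
      exact (ha.mul hb) i j (by omega)
  intro i j h
  rw [Matrix.sub_apply, key x y hx hy i j h, key y x hy hx i j h]
  split_ifs
  · ring
  · ring

/-- the subgroups of the filtration -/
def DD {m : ℕ} (G : Subgroup (Matrix (Fin m) (Fin m) ℝ)ˣ)
    (hG : ∀ g ∈ G, VV 0 (g : Matrix (Fin m) (Fin m) ℝ)) (k : ℕ) : Subgroup G where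
  carrier := {g | VV k (((g : (Matrix (Fin m) (Fin m) ℝ)ˣ) : Matrix (Fin m) (Fin m) ℝ) - 1)}
  mul_mem' := by
    intro g h hg hh
    change VV k ((((g : (Matrix (Fin m) (Fin m) ℝ)ˣ) : Matrix (Fin m) (Fin m) ℝ)) *
      ((h : (Matrix (Fin m) (Fin m) ℝ)ˣ) : Matrix (Fin m) (Fin m) ℝ) - 1)
    have e : (((g : (Matrix (Fin m) (Fin m) ℝ)ˣ) : Matrix (Fin m) (Fin m) ℝ)) *
      ((h : (Matrix (Fin m) (Fin m) ℝ)ˣ) : Matrix (Fin m) (Fin m) ℝ) - 1 =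
      ((((g : (Matrix (Fin m) (Fin m) ℝ)ˣ) : Matrix (Fin m) (Fin m) ℝ)) - 1) *
        ((h : (Matrix (Fin m) (Fin m) ℝ)ˣ) : Matrix (Fin m) (Fin m) ℝ) +
      (((h : (Matrix (Fin m) (Fin m) ℝ)ˣ) : Matrix (Fin m) (Fin m) ℝ) - 1) := by
      rw [sub_mul, one_mul]; abel
    rw [e]
    exact (VV.mul (k := k) (l := 0) hg (hG _ h.2)).add hh
  one_mem' := by
    change VV k ((1 : Matrix (Fin m) (Fin m) ℝ) - 1)
    rw [sub_self]
    intro i j _
    rfl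
  inv_mem' := by
    intro g hg
    change VV k ((((g : (Matrix (Fin m) (Fin m) ℝ)ˣ)⁻¹ : (Matrix (Fin m) (Fin m) ℝ)ˣ) :
      Matrix (Fin m) (Fin m) ℝ) - 1)
    have e : (((g : (Matrix (Fin m) (Fin m) ℝ)ˣ)⁻¹ : (Matrix (Fin m) (Fin m) ℝ)ˣ) :
      Matrix (Fin m) (Fin m) ℝ) - 1 =
      -((((g : (Matrix (Fin m) (Fin m) ℝ)ˣ)⁻¹ : (Matrix (Fin m) (Fin m) ℝ)ˣ) :
      Matrix (Fin m) (Fin m) ℝ) *
        (((g : (Matrix (Fin m) (Fin m) ℝ)ˣ) : Matrix (Fin m) (Fin m) ℝ) - 1)) := by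
      rw [mul_sub, mul_one, Units.inv_mul]; abel
    rw [e]
    have h1 : VV 0 ((((g : (Matrix (Fin m) (Fin m) ℝ)ˣ)⁻¹ : (Matrix (Fin m) (Fin m) ℝ)ˣ) :
      Matrix (Fin m) (Fin m) ℝ)) := hG _ (G.inv_mem g.2)
    have h2 := VV.mul (k := 0) (l := k) h1 hg
    rw [Nat.zero_add] at h2
    exact h2.neg

theorem comm_step {m : ℕ} (G : Subgroup (Matrix (Fin m) (Fin m) ℝ)ˣ)
    (hG : ∀ g ∈ G, VV 0 (g : Matrix (Fin m) (Fin m) ℝ)) (k : ℕ) :
    ⁅DD G hG k, DD G hG k⁆ ≤ DD G hG (k + 1) := by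
  rw [Subgroup.commutator_le]
  intro g hg h hh
  have hg' : VV k (((g : (Matrix (Fin m) (Fin m) ℝ)ˣ) : Matrix (Fin m) (Fin m) ℝ) - 1) := hg
  have hh' : VV k (((h : (Matrix (Fin m) (Fin m) ℝ)ˣ) : Matrix (Fin m) (Fin m) ℝ) - 1) := hh
  obtain ⟨g, hgG⟩ := g
  obtain ⟨h, hhG⟩ := h
  simp only at hg' hh'
  change VV (k + 1) ((g : Matrix (Fin m) (Fin m) ℝ) * (h : Matrix (Fin m) (Fin m) ℝ) *
    ((g⁻¹ : (Matrix (Fin m) (Fin m) ℝ)ˣ) : Matrix (Fin m) (Fin m) ℝ) *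
    ((h⁻¹ : (Matrix (Fin m) (Fin m) ℝ)ˣ) : Matrix (Fin m) (Fin m) ℝ) - 1)
  have h1 : VV (k + 1) ((g : Matrix (Fin m) (Fin m) ℝ) * (h : Matrix (Fin m) (Fin m) ℝ) -
      (h : Matrix (Fin m) (Fin m) ℝ) * (g : Matrix (Fin m) (Fin m) ℝ)) := by
    rcases Nat.eq_zero_or_pos k with hk | hk
    · subst hk
      exact comm_one (hG g hgG) (hG h hhG)
    · have e : (g : Matrix (Fin m) (Fin m) ℝ) * (h : Matrix (Fin m) (Fin m) ℝ) -
        (h : Matrix (Fin m) (Fin m) ℝ) * (g : Matrix (Fin m) (Fin m) ℝ) =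
        ((g : Matrix (Fin m) (Fin m) ℝ) - 1) * ((h : Matrix (Fin m) (Fin m) ℝ) - 1) -
        ((h : Matrix (Fin m) (Fin m) ℝ) - 1) * ((g : Matrix (Fin m) (Fin m) ℝ) - 1) := by
        noncomm_ring
      rw [e]
      exact ((hg'.mul hh').sub (hh'.mul hg')).mono (by omega)
  have e2 : (g : Matrix (Fin m) (Fin m) ℝ) * (h : Matrix (Fin m) (Fin m) ℝ) *
    ((g⁻¹ : (Matrix (Fin m) (Fin m) ℝ)ˣ) : Matrix (Fin m) (Fin m) ℝ) *
    ((h⁻¹ : (Matrix (Fin m) (Fin m) ℝ)ˣ) : Matrix (Fin m) (Fin m) ℝ) - 1 =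
    ((g : Matrix (Fin m) (Fin m) ℝ) * (h : Matrix (Fin m) (Fin m) ℝ) -
      (h : Matrix (Fin m) (Fin m) ℝ) * (g : Matrix (Fin m) (Fin m) ℝ)) *
      ((g⁻¹ : (Matrix (Fin m) (Fin m) ℝ)ˣ) : Matrix (Fin m) (Fin m) ℝ) *
    ((h⁻¹ : (Matrix (Fin m) (Fin m) ℝ)ˣ) : Matrix (Fin m) (Fin m) ℝ) := by
    rw [sub_mul, sub_mul, mul_assoc (h : Matrix (Fin m) (Fin m) ℝ) (g : Matrix (Fin m) (Fin m) ℝ),
      Units.mul_inv, mul_one, Units.mul_inv]
  rw [e2]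
  exact (h1.mul (l := 0) (hG _ (G.inv_mem hgG))).mul (l := 0) (hG _ (G.inv_mem hhG))

theorem uts : UtsStmt := by
  intro m G hG0
  have hG : ∀ g ∈ G, VV 0 (g : Matrix (Fin m) (Fin m) ℝ) := fun g hg i j hij =>
    hG0 g hg i j (by rw [Fin.lt_def]; omega)
  have h1 : ∀ k, derivedSeries G k ≤ DD G hG k := by
    intro k
    induction k with
    | zero =>
      intro g _
      change VV 0 _
      refine (hG _ g.2).sub ?_
      intro i j hij
      rw [Matrix.one_apply_ne]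
      intro h; rw [h] at hij; omega
    | succ k ih =>
      rw [derivedSeries_succ]
      exact (Subgroup.commutator_mono ih ih).trans (comm_step G hG k)
  refine ⟨⟨m, ?_⟩⟩
  rw [eq_bot_iff]
  intro g hg
  have h2 : VV m _ := h1 m hg
  rw [Subgroup.mem_bot]
  ext i j
  have h3 := h2 i j (by omega)
  rw [Matrix.sub_apply, sub_eq_zero] at h3
  exact h3

end Pool.Agent.QSX.H62
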